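import Pool.Agent.MP_3b3b41_nt.Mg.Main

/-! Asymmetric true complexity, uniformly over all finite abelian groups whose order has no small
prime factor. -/

namespace Pool.Agent.Results.MP_3b3b41_nt.AllGroups

theorem result :
    ∀ (k d : ℕ) (Φ : Fin k → Fin d → ℤ) (i : Fin k) (s : ℕ),
      ((∀ ε : ℝ, 0 < ε → ∃ δ : ℝ, 0 < δ ∧ ∃ P : ℕ,
          ∀ (G : Type) [AddCommGroup G] [Fintype G],
            (∀ q : ℕ, q.Prime → q ∣ Fintype.card G → P ≤ q) →
            ∀ f : Fin k → G → ℂ, (∀ j x, ‖f j x‖ ≤ 1) →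
              ‖((Fintype.card G : ℂ) ^ (s + 2))⁻¹ *
                  ∑ x : G, ∑ h : Fin (s + 1) → G,
                    ∏ ω : Fin (s + 1) → Bool,
                      (if Even (Finset.univ.filter (fun r => ω r = true)).card
                        then f i (x + ∑ r, (if ω r = true then h r else 0))
                        else starRingEnd ℂ (f i (x + ∑ r, (if ω r = true then h r else 0))))‖ ≤ δ →
              ‖((Fintype.card G : ℂ) ^ d)⁻¹ *
                  ∑ x : Fin d → G, ∏ j, f j (∑ l, Φ j l • x l)‖ ≤ ε)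
        ↔
        (fun ω : Fin (s + 1) → Fin d => ∏ m, ((Φ i (ω m) : ℤ) : ℚ)) ∉
          Submodule.span ℚ (Set.range (fun j : {j : Fin k // j ≠ i} =>
            fun ω : Fin (s + 1) → Fin d => ∏ m, ((Φ j.1 (ω m) : ℤ) : ℚ)))) := by
  intro k d Φ i s
  have e1 : ∀ (G : Type) [AddCommGroup G] [Fintype G] (f : G → ℂ),
      ((Fintype.card G : ℂ) ^ (s + 2))⁻¹ *
      ∑ x : G, ∑ h : Fin (s + 1) → G, ∏ ω : Fin (s + 1) → Bool,
        (if Even (Finset.univ.filter (fun r => ω r = true)).card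
          then f (x + ∑ r, (if ω r = true then h r else 0))
          else starRingEnd ℂ (f (x + ∑ r, (if ω r = true then h r else 0)))) =
      Pool.Agent.MP_3b3b41_nt.Nf (s + 1) f := fun G _ _ f => by
    rw [Pool.Agent.MP_3b3b41_nt.Nf, Fintype.expect_eq_sum_div_card, Fintype.sum_prod_type,
      div_eq_inv_mul, Fintype.card_prod, Fintype.card_fun, Fintype.card_fin,
      ← pow_succ', Nat.cast_pow]
    rfl
  have e2 : ∀ (G : Type) [AddCommGroup G] [Fintype G] (f : Fin k → G → ℂ),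
      ((Fintype.card G : ℂ) ^ d)⁻¹ * ∑ x : Fin d → G, ∏ j, f j (∑ l, Φ j l • x l) =
      Finset.univ.expect fun x : Fin d → G => ∏ j, f j (∑ l, Φ j l • x l) := fun G _ _ f => by
    rw [Fintype.expect_eq_sum_div_card, div_eq_inv_mul, Fintype.card_fun,
      Fintype.card_fin, Nat.cast_pow]
  constructor
  · intro h hs
    obtain ⟨δ, hδ, P, hP⟩ := h (1 / 2) (by norm_num)
    obtain ⟨p, hp, h1, f, h2, h3, h4⟩ := Pool.Agent.MP_3b3b41_nt.converse hs hδ P
    have := hP (ZMod p) (fun q hq h5 => by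
      rw [ZMod.card, Nat.prime_dvd_prime_iff_eq hq hp.out] at h5
      exact h5 ▸ h1) f h2 (by rwa [e1])
    rw [e2, h4] at this
    norm_num at this
  · intro h ε hε
    obtain ⟨δ, hδ, P, hP⟩ := Pool.Agent.MP_3b3b41_nt.control h hε
    refine ⟨δ, hδ, P, fun G _ _ h1 f h2 h3 => ?_⟩
    rw [e2]
    exact hP G h1 f h2 (by rwa [e1] at h3)

end Pool.Agent.Results.MP_3b3b41_nt.AllGroups
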